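import Pool.Agent.Helper29.Sep98.Stat
import Pool.Agent.Helper29.Sep98.DefsC

/-!
# MP_98c5a3_lc: `Σ¹₁`-separation at a weakly compact cardinal, and the club filter

At a weakly compact cardinal `κ` the `Σ¹₁`-separation property of `κ^κ` is equivalent to its
instances for the pairs (club filter, nonstationary ideal) restricted to stationary sets.
-/

universe u

namespace Sep98

open Cardinal Ordinal

variable {κ : Cardinal.{u}}

/-- a version of `sigma_of_local` with an arbitrary bounded support -/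
theorem sigma_of_local' (Q : Ordinal.{u} → BS κ → Prop)
    (hQ : ∀ α < κ.ord, ∃ a < κ.ord, ∀ f f' : BS κ, Agr a f f' → Q α f → Q α f') :
    Sigma11 κ {f | ∃ c : Ordinal.{u} → Ordinal.{u}, (∀ ξ < κ.ord, c ξ < κ.ord) ∧
      ∀ α < κ.ord, Cl c α → Q α f} := by
  refine ⟨{p | ∀ α < κ.ord, Cl (ext p.2) α → Q α p.1}, ?_, ?_⟩
  · apply closed_of_local
    intro f g hfg
    have hfg' : ¬ ∀ α < κ.ord, Cl (ext g) α → Q α f := hfg
    push Not at hfg'
    obtain ⟨α, hα, hcl, hn⟩ := hfg'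
    obtain ⟨a, ha, ha2⟩ := hQ α hα
    refine ⟨max a α, max_lt ha hα, fun f' g' h1 h2 hmem => hn ?_⟩
    have h3 : Q α f' := hmem α hα (cl_congr (ext_congr
      (fun x hx => h2 x (hx.trans_le (le_max_right _ _))) hα) hcl)
    exact ha2 f' f (fun x hx => (h1 x (hx.trans_le (le_max_left _ _))).symm) h3
  · ext f
    constructor
    · rintro ⟨c, hc, h⟩
      obtain ⟨g, hg, -⟩ := exists_res c hc
      refine ⟨(f, g), fun α hα hcl => h α hα ?_, rfl⟩
      exact cl_congr (fun ξ hξ => hg ξ (hξ.trans hα)) hcl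
    · rintro ⟨⟨f', g⟩, h, rfl⟩
      exact ⟨ext g, fun ξ hξ => ext_lt g ξ hξ, h⟩

theorem sigma_club (hκ : κ.IsRegular) (hω : ℵ₀ < κ) (R : K κ → K κ → Prop) (W : Set Ordinal.{u}) :
    Sigma11 κ {f : BS κ | ∃ C : Set Ordinal.{u}, IsClubIn C κ.ord ∧
      ∀ x : K κ, x.1 ∈ W → x.1 ∈ C → R x (f x)} := by
  have h1 := sigma_of_local' (κ := κ)
    (fun α f => ∀ x : K κ, x.1 = α → x.1 ∈ W → R x (f x)) (by
      intro α hα
      refine ⟨α + 1, succ_lt hω hα, fun f f' hff h x hx hxW => ?_⟩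
      have h2 := h x hx hxW
      have h3 : f x = f' x := hff x (by rw [hx]; exact lt_add_one α)
      rwa [h3] at h2)
  have h2 : {f : BS κ | ∃ C : Set Ordinal.{u}, IsClubIn C κ.ord ∧
      ∀ x : K κ, x.1 ∈ W → x.1 ∈ C → R x (f x)} =
      {f : BS κ | ∃ c : Ordinal.{u} → Ordinal.{u}, (∀ ξ < κ.ord, c ξ < κ.ord) ∧
        ∀ α < κ.ord, Cl c α → ∀ x : K κ, x.1 = α → x.1 ∈ W → R x (f x)} := by
    ext f
    constructor
    · rintro ⟨C, hC, h⟩
      obtain ⟨c, hc1, hc2⟩ := club_next hC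
      refine ⟨c, fun ξ hξ => (hc1 ξ hξ).1, fun α hα hcl x hx hxW => ?_⟩
      exact h x hxW (hx ▸ hc2 α hα hcl)
    · rintro ⟨c, hc, h⟩
      exact ⟨_, cl_club hκ hω c hc, fun x hxW hxC => h x.1 hxC.1 hxC.2 x rfl hxW⟩
  rw [h2]
  exact h1

/-- a map is continuous if bounded parts of the value are determined by bounded parts of the
argument -/
theorem continuous_of_local (Φ : BS κ → BS κ)
    (h : ∀ a < κ.ord, ∀ f g : BS κ, Agr a f g → Agr a (Φ f) (Φ g)) : Continuous Φ := by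
  apply continuous_generateFrom_iff.2
  rintro U ⟨a, s, rfl⟩
  have h1 : Φ ⁻¹' {f : BS κ | ∀ x : K κ, x < a → f x = s x} =
      ⋃ f ∈ Φ ⁻¹' {f : BS κ | ∀ x : K κ, x < a → f x = s x},
        {g : BS κ | ∀ x : K κ, x < a → g x = f x} := by
    ext g
    simp only [Set.mem_iUnion]
    constructor
    · intro hg
      exact ⟨g, hg, fun x _ => rfl⟩
    · rintro ⟨f, hf, hgf⟩ x hx
      have h2 : Agr a.1 f g := fun y hy => (hgf y hy).symm
      rw [← h a.1 a.2 f g h2 x hx]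
      exact hf x hx
  rw [h1]
  exact isOpen_biUnion fun f _ => isOpen_cyl a f

theorem sigma_preimage (Φ : BS κ → BS κ) (hΦ : Continuous Φ) {D : Set (BS κ)}
    (hD : Sigma11 κ D) : Sigma11 κ (Φ ⁻¹' D) := by
  obtain ⟨P, hP, rfl⟩ := hD
  refine ⟨(fun p : BS κ × BS κ => (Φ p.1, p.2)) ⁻¹' P,
    hP.preimage ((hΦ.comp continuous_fst).prodMk continuous_snd), ?_⟩
  ext f
  constructor
  · rintro ⟨⟨f', g⟩, h, he⟩
    refine ⟨(f, g), ?_, rfl⟩
    have he' : f' = Φ f := he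
    show (Φ f, g) ∈ P
    rw [← he']
    exact h
  · rintro ⟨⟨f', g⟩, h, rfl⟩
    exact ⟨(Φ f', g), h, rfl⟩

end Sep98

namespace Pool.Agent.Results.MP_98c5a3_lc.ClubFilterComplete

open Cardinal Ordinal Sep98

theorem sep_of_club (κ : Cardinal.{u}) (hw : WeaklyCompact κ)
    (H : ∀ W : Set Ordinal.{u}, W ⊆ Reg κ → IsStationaryIn W κ.ord →
      ∃ E ⊆ W, IsStationaryIn E κ.ord ∧ ClubSep κ E) : Separation κ := by
  classical
  rintro A B ⟨P, hP, rfl⟩ ⟨Q, hQ, rfl⟩ hd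
  have hκ := hw.1.isRegular
  have hω := hw.1.aleph0_lt
  have hWR : Wset κ P Q ⊆ Reg κ := fun α hα => hα.1
  have hW : IsStationaryIn (Wset κ P Q) κ.ord := (stat_iff hκ hω).2 (stat_W hw hP hQ hd)
  obtain ⟨E, hEW, hE, D, hD1, hD2, hD3, hD4⟩ := H _ hWR hW
  have h0 : (0 : Ordinal.{u}) < κ.ord := hκ.ord_pos
  have h1 : (1 : Ordinal.{u}) < κ.ord := by
    have := succ_lt hω h0
    rwa [zero_add] at this
  let Φ : BS κ → BS κ := fun f x => if Loc P x.1 (ext f) then ⟨1, h1⟩ else ⟨0, h0⟩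
  have hΦc : Continuous Φ := by
    apply continuous_of_local
    intro a ha f g hfg x hx
    have h2 : Loc P x.1 (ext f) ↔ Loc P x.1 (ext g) := by
      have h3 : ∀ ξ < x.1, ext f ξ = ext g ξ := fun ξ hξ => ext_congr hfg ha ξ (hξ.trans hx)
      exact ⟨loc_congr h3, loc_congr fun ξ hξ => (h3 ξ hξ).symm⟩
    simp only [Φ, h2]
  refine ⟨Φ ⁻¹' D, sigma_preimage Φ hΦc hD1, ?_, ?_, ?_⟩
  · rw [← Set.preimage_compl]
    exact sigma_preimage Φ hΦc hD2
  · intro f hf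
    apply hD3
    obtain ⟨c, hc, hc2⟩ := loc_of_mem hf
    refine ⟨_, cl_club hκ hω c hc, fun x hxE hxC => ?_⟩
    have h2 : Loc P x.1 (ext f) := hc2 x.1 hxC.1 hxC.2
    simp only [Φ, h2, if_true]
    exact one_ne_zero
  · rw [Set.disjoint_left]
    intro f hfD hfB
    refine Set.disjoint_left.1 hD4 hfD ?_
    obtain ⟨c, hc, hc2⟩ := loc_of_mem hfB
    refine ⟨_, cl_club hκ hω c hc, fun x hxE hxC => ?_⟩
    have h2 : ¬ Loc P x.1 (ext f) := fun h3 =>
      (hEW hxE).2 ⟨ext f, h3, hc2 x.1 hxC.1 hxC.2⟩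
    simp only [Φ, h2, if_false]

theorem club_of_sep (κ : Cardinal.{u}) (hκ : κ.IsRegular) (hω : ℵ₀ < κ) (hS : Separation κ)
    (W : Set Ordinal.{u}) (hW : IsStationaryIn W κ.ord) : ClubSep κ W := by
  refine hS _ _ (sigma_club hκ hω (fun _ y => y.1 ≠ 0) W) (sigma_club hκ hω (fun _ y => y.1 = 0) W) ?_
  rw [Set.disjoint_left]
  rintro f ⟨C, hC, h1⟩ ⟨C', hC', h2⟩
  obtain ⟨c, hc1, hc2⟩ := club_next hC
  obtain ⟨c', hc1', hc2'⟩ := club_next hC'
  obtain ⟨α, hα, hακ, hcl⟩ := (stat_iff hκ hω).1 hW (fun ξ => max (c ξ) (c' ξ))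
    (fun ξ hξ => max_lt (hc1 ξ hξ).1 (hc1' ξ hξ).1)
  obtain ⟨h3, h4⟩ := cl_max.1 hcl
  exact h1 ⟨α, hακ⟩ hα (hc2 α hακ h3) (h2 ⟨α, hακ⟩ hα (hc2' α hακ h4))

/-- **Theorem.** Let `κ` be weakly compact. Then `κ^κ` has the `Σ¹₁`-separation property if and only
if for every stationary `W` some `Δ¹₁` set separates the club filter restricted to `W` from the
nonstationary ideal restricted to `W`; and if and only if every stationary set of regular cardinals
has a stationary subset `E` with this property. -/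
theorem result (κ : Cardinal.{u}) (hw : WeaklyCompact κ) :
    (Separation κ ↔ ∀ W : Set Ordinal.{u}, IsStationaryIn W κ.ord → ClubSep κ W) ∧
    (Separation κ ↔ ∀ W : Set Ordinal.{u}, W ⊆ Reg κ → IsStationaryIn W κ.ord →
      ∃ E ⊆ W, IsStationaryIn E κ.ord ∧ ClubSep κ E) := by
  have hκ := hw.1.isRegular
  have hω := hw.1.aleph0_lt
  refine ⟨⟨fun h W hW => club_of_sep κ hκ hω h W hW, fun h => ?_⟩,
    ⟨fun h W _ hW => ⟨W, subset_refl _, hW, club_of_sep κ hκ hω h W hW⟩, sep_of_club κ hw⟩⟩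
  exact sep_of_club κ hw fun W _ hW => ⟨W, subset_refl _, hW, h W hW⟩

end Pool.Agent.Results.MP_98c5a3_lc.ClubFilterComplete
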