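import Pool.Agent.Helper29.Sep98.Stat

/-!
# MP_98c5a3_lc: `Σ¹₁`-separation in `κ^κ` from weak compactness and Full Reflection

For a weakly compact cardinal `κ` at which Full Reflection (Jech and Witzany) holds, the generalized
Baire space `κ^κ` has the `Σ¹₁`-separation property. All definitions used by the statement are in
`Pool/Agent/Helper29/Sep98/Defs.lean`.
-/

universe u

namespace Pool.Agent.Results.MP_98c5a3_lc.FullReflectionSeparation

open Cardinal Ordinal Sep98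

/-- **Theorem.** If `κ` is weakly compact and Full Reflection holds at `κ`, then `κ^κ` has the
`Σ¹₁`-separation property. -/
theorem result (κ : Cardinal.{u}) (hw : WeaklyCompact κ) (hF : FullReflection κ) :
    Separation κ := by
  classical
  rintro A B ⟨P, hP, rfl⟩ ⟨Q, hQ, rfl⟩ hd
  have hκ := hw.1.isRegular
  have hω := hw.1.aleph0_lt
  let W := Wset κ P Q
  have hWR : W ⊆ Reg κ := fun α hα => hα.1
  have hW : StatF W κ.ord := stat_W hw hP hQ hd
  let T : Set Ordinal.{u} := {α | α ∈ Reg κ ∧ IsStationaryIn W α}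
  have hT : StatF T κ.ord := stat_T hw W hW
  let E : Set Ordinal.{u} := {α | α ∈ W ∧ ¬ IsStationaryIn W α}
  have hE : StatF E κ.ord := stat_E W hW hWR
  -- the set of a point
  let Sf : BS κ → Set Ordinal.{u} := fun f => {α | α ∈ E ∧ Loc P α (ext f)}
  have hloc : ∀ α < κ.ord, ∀ f f' : BS κ, Agr α f f' → Loc P α (ext f) → Loc P α (ext f') :=
    fun α hα f f' h h1 => loc_congr (ext_congr h hα) h1
  have notstat : ∀ f : BS κ, ¬ StatF (Sf f) κ.ord ↔ ∃ c : Ordinal.{u} → Ordinal.{u},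
      (∀ ξ < κ.ord, c ξ < κ.ord) ∧ ∀ α < κ.ord, Cl c α → (α ∈ E → ¬ Loc P α (ext f)) := by
    intro f
    constructor
    · intro h
      by_contra hcon
      push Not at hcon
      refine h fun c hc => ?_
      obtain ⟨α, h1, h2, h3, h4⟩ := hcon c hc
      exact ⟨α, ⟨h3, h4⟩, h1, h2⟩
    · rintro ⟨c, hc, h⟩ hs
      obtain ⟨α, h1, h2, h3⟩ := hs c hc
      exact h α h2 h3 h1.1 h1.2
  have isstat : ∀ f : BS κ, StatF (Sf f) κ.ord ↔ ∃ c : Ordinal.{u} → Ordinal.{u},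
      (∀ ξ < κ.ord, c ξ < κ.ord) ∧ ∀ α < κ.ord, Cl c α → (α ∈ T → IsStationaryIn (Sf f) α) := by
    intro f
    constructor
    · intro h
      have h1 : Below κ (Sf f) T := reflect hω hF hWR ((stat_iff hκ hω).2 hW)
        ((stat_iff hκ hω).2 h) (fun α hα => hα.1)
      obtain ⟨C, hC, hC2⟩ := h1
      obtain ⟨c, hc, hc2⟩ := club_next hC
      exact ⟨c, fun ξ hξ => (hc ξ hξ).1, fun α hα hcl hαT => hC2 α ⟨hαT, hc2 α hα hcl⟩⟩
    · rintro ⟨c, hc, h⟩ d hd
      obtain ⟨α, hαT, hα, hcl⟩ := hT (fun ξ => max (c ξ) (d ξ)) (fun ξ hξ => max_lt (hc ξ hξ) (hd ξ hξ))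
      obtain ⟨h1, h2⟩ := cl_max.1 hcl
      have h3 := h α hα h1 hαT
      rw [stat_reg hαT.1] at h3
      obtain ⟨β, h4, h5, h6⟩ := h3 d h2.2
      exact ⟨β, h4, h5.trans hα, h6⟩
  refine ⟨{f | StatF (Sf f) κ.ord}, ?_, ?_, ?_, ?_⟩
  · -- the set is `Σ¹₁`
    have h1 := sigma_of_local (κ := κ) (fun α f => α ∈ T → IsStationaryIn (Sf f) α) (by
      intro α hα f f' hff h hαT C hC
      obtain ⟨β, hβ, hβC⟩ := h hαT C hC
      have hβα : β < α := hC.1 hβC
      exact ⟨β, ⟨hβ.1, hloc β (hβα.trans hα) f f' (fun x hx => hff x (hx.trans hβα)) hβ.2⟩, hβC⟩)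
    have h2 : {f : BS κ | StatF (Sf f) κ.ord} = _ := Set.ext fun f => isstat f
    rw [h2]
    exact h1
  · have h1 := sigma_of_local (κ := κ) (fun α f => α ∈ E → ¬ Loc P α (ext f)) (by
      intro α hα f f' hff h hαE hl
      exact h hαE (hloc α hα f' f (fun x hx => (hff x hx).symm) hl))
    have h2 : {f : BS κ | StatF (Sf f) κ.ord}ᶜ = _ := Set.ext fun f => notstat f
    rw [h2]
    exact h1
  · intro f hf c hc
    obtain ⟨d, hd1, hd2⟩ := loc_of_mem hf
    obtain ⟨α, hα, hακ, hcl⟩ := hE (fun ξ => max (c ξ) (d ξ)) (fun ξ hξ => max_lt (hc ξ hξ) (hd1 ξ hξ))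
    obtain ⟨h1, h2⟩ := cl_max.1 hcl
    exact ⟨α, ⟨hα, hd2 α hακ h2⟩, hακ, h1⟩
  · rw [Set.disjoint_left]
    intro f hf hfB
    obtain ⟨d, hd1, hd2⟩ := loc_of_mem hfB
    obtain ⟨α, hα, hακ, hcl⟩ := hf d hd1
    exact hα.1.1.2 ⟨ext f, hα.2, hd2 α hακ hcl⟩

end Pool.Agent.Results.MP_98c5a3_lc.FullReflectionSeparation
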